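import Pool.Agent.Lib_helper52.LQ.Defs
import Pool.Agent.Lib_helper53.LQ.N1
import Pool.Agent.Lib_helper87.YG.T3

set_option autoImplicit false

namespace Pool.Agent.LQ

open MeasureTheory ENNReal Set Filter Topology Pool.Agent.EPS Pool.Agent.YG

variable {d : ℕ}

theorem u2_trans {p : Eu d → ℝ} (hp : Integrable p) {ε : ℝ} (hε : 0 < ε) :
    ∃ ρ > 0, ∀ v : Eu d, ‖v‖ ≤ ρ → ∫⁻ x, ‖p (x - v) - p x‖ₑ ≤ ENNReal.ofReal ε := by
  have : Fact ((1 : ℝ≥0∞) ≤ 1) := ⟨le_rfl⟩
  have : Fact ((1 : ℝ≥0∞) ≠ ∞) := ⟨one_ne_top⟩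
  have hm : MemLp p 1 := memLp_one_iff_integrable.2 hp
  have c : Continuous (fun v : Eu d =>
      DomAddAct.mk v +ᵥ (hm.toLp p : Lp ℝ 1 (volume : Measure (Eu d)))) := by
    have h1 : Continuous (fun v : Eu d => (DomAddAct.mk v : (Eu d)ᵈᵃᵃ)) := by fun_prop
    exact h1.vadd continuous_const
  have h0 := (Metric.continuous_iff.1 c) 0
  obtain ⟨δ, d0, hd⟩ := h0 ε hε
  refine ⟨δ / 2, by positivity, fun v hv => ?_⟩
  have h2 := hd (-v) (by rw [dist_zero_right, norm_neg]; linarith)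
  rw [DomAddAct.mk_vadd_toLp, DomAddAct.mk_vadd_toLp] at h2
  have i1 : Integrable (fun x => p (-v +ᵥ x)) :=
    memLp_one_iff_integrable.1 (hm.comp_measurePreserving (measurePreserving_vadd (-v) volume))
  have i2 : Integrable (fun x => p ((0 : Eu d) +ᵥ x)) :=
    memLp_one_iff_integrable.1 (hm.comp_measurePreserving (measurePreserving_vadd (0 : Eu d) volume))
  have h3 := Integrable.edist_toL1_toL1 _ _ i1 i2
  have h4 : edist (i1.toL1 (fun x => p (-v +ᵥ x))) (i2.toL1 (fun x => p ((0 : Eu d) +ᵥ x))) <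
      ENNReal.ofReal ε := by
    rw [edist_dist]
    exact (ENNReal.ofReal_lt_ofReal_iff hε).2 h2
  rw [h3] at h4
  refine le_trans (le_of_eq ?_) h4.le
  refine lintegral_congr fun x => ?_
  rw [edist_eq_enorm_sub, vadd_eq_add, vadd_eq_add, zero_add, neg_add_eq_sub]

/-- mean of a law -/
noncomputable def u2_m (β : Measure (Eu d)) : Eu d := WithLp.toLp 2 (fun j => ∫ x, x j ∂β)

theorem u2_coord {β : Measure (Eu d)} {L : ℝ} (hβ : Sp L β) (j : Fin d) :
    Integrable (fun x : Eu d => x j) β ∧ Integrable (fun x : Eu d => (x j) ^ 2) β ∧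
      |∫ x, x j ∂β| ≤ |L| := by
  obtain ⟨⟨hp, -, -⟩, hb⟩ := hβ
  have hb' : ∀ᵐ x ∂β, ‖(x : Eu d) j‖ ≤ |L| := by
    filter_upwards [hb] with x hx
    exact (hx j).trans (le_abs_self L)
  have hm : Measurable (fun x : Eu d => x j) := by fun_prop
  refine ⟨?_, ?_, ?_⟩
  · exact Integrable.of_bound hm.aestronglyMeasurable |L| hb'
  · refine Integrable.of_bound (hm.pow_const 2).aestronglyMeasurable (|L| ^ 2) ?_
    filter_upwards [hb'] with x hx
    rw [norm_pow]
    gcongr
  · have := norm_integral_le_of_norm_le_const hb'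
    simpa using this

theorem u2_norm_m {β : Measure (Eu d)} {L : ℝ} (hL : 0 < L) (hβ : Sp L β) : ‖u2_m β‖ ≤ L * d := by
  have h1 : ‖u2_m β‖ ≤ ∑ j : Fin d, ‖u2_m β j‖ := by
    rw [EuclideanSpace.norm_eq]
    apply Real.sqrt_le_iff.2
    refine ⟨Finset.sum_nonneg fun _ _ => norm_nonneg _, ?_⟩
    exact Finset.sum_sq_le_sq_sum_of_nonneg (fun i _ => norm_nonneg _)
  refine h1.trans ?_
  have h2 : ∀ j : Fin d, ‖u2_m β j‖ ≤ L := fun j => by
    have := (u2_coord hβ j).2.2
    rw [abs_of_pos hL] at this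
    exact this
  refine (Finset.sum_le_sum fun j _ => h2 j).trans ?_
  simp [mul_comm]

theorem u2_second {β : Measure (Eu d)} {L : ℝ} (hβ : Sp L β) :
    Integrable (fun x : Eu d => ‖x - u2_m β‖ ^ 2) β ∧
      ∫ x, ‖x - u2_m β‖ ^ 2 ∂β = ∑ j, va β j := by
  have hp := hβ.1.1
  have e : ∀ x : Eu d, ‖x - u2_m β‖ ^ 2 = ∑ j, (x j - ∫ y, y j ∂β) ^ 2 := by
    intro x
    rw [EuclideanSpace.norm_sq_eq]
    refine Finset.sum_congr rfl fun j _ => ?_
    rw [Real.norm_eq_abs, sq_abs]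
    rfl
  have i : ∀ j, Integrable (fun x : Eu d => (x j - ∫ y, y j ∂β) ^ 2) β := by
    intro j
    obtain ⟨i1, i2, -⟩ := u2_coord hβ j
    have : (fun x : Eu d => (x j - ∫ y, y j ∂β) ^ 2) = fun x : Eu d =>
        (x j) ^ 2 - 2 * (∫ y, y j ∂β) * x j + (∫ y, y j ∂β) ^ 2 := by
      funext x
      ring
    rw [this]
    exact (i2.sub (i1.const_mul _)).add (integrable_const _)
  refine ⟨?_, ?_⟩
  · simp_rw [e]
    exact integrable_finsetSum _ fun j _ => i j
  · simp_rw [e]
    rw [integral_finsetSum _ fun j _ => i j]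
    refine Finset.sum_congr rfl fun j _ => ?_
    obtain ⟨i1, i2, -⟩ := u2_coord hβ j
    have : (fun x : Eu d => (x j - ∫ y, y j ∂β) ^ 2) = fun x : Eu d =>
        (x j) ^ 2 - 2 * (∫ y, y j ∂β) * x j + (∫ y, y j ∂β) ^ 2 := by
      funext x
      ring
    have i3 : Integrable (fun x : Eu d => 2 * (∫ y, y j ∂β) * x j) β := i1.const_mul _
    have i4 : Integrable (fun x : Eu d => (x j) ^ 2 - 2 * (∫ y, y j ∂β) * x j) β := i2.sub i3
    rw [this, integral_add i4 (integrable_const _), integral_sub i2 i3,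
      integral_const_mul]
    unfold va
    simp
    ring

theorem u2_cheb {β : Measure (Eu d)} {L : ℝ} (hβ : Sp L β) {ρ : ℝ} (hρ : 0 < ρ) :
    β {y | ρ < ‖y - u2_m β‖} ≤ ENNReal.ofReal ((∑ j, va β j) / ρ ^ 2) := by
  have hp := hβ.1.1
  obtain ⟨i, e⟩ := u2_second hβ
  have h := mul_meas_ge_le_integral_of_nonneg (ae_of_all _ fun x => by positivity) i (ρ ^ 2)
  rw [e] at h
  have h2 : β {y | ρ < ‖y - u2_m β‖} ≤ β {y | ρ ^ 2 ≤ ‖y - u2_m β‖ ^ 2} := by
    apply measure_mono
    intro y hy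
    simp only [Set.mem_ofPred_eq] at hy ⊢
    gcongr
  refine h2.trans ?_
  rw [← ENNReal.ofReal_toReal (measure_ne_top β {y | ρ ^ 2 ≤ ‖y - u2_m β‖ ^ 2})]
  apply ENNReal.ofReal_le_ofReal
  rw [le_div_iff₀ (by positivity)]
  rw [mul_comm]
  exact h

theorem u2_dens (α β : Measure (Eu d)) [IsProbabilityMeasure α] [IsProbabilityMeasure β]
    (hα : α ≪ volume) (hβ : β ≪ volume) :
    ∀ᵐ s, dn (α.conv β) s = ∫⁻ v, dn α (s - v) ∂β := by
  filter_upwards [dn_conv α β hα hβ] with s hs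
  rw [← hs]
  obtain ⟨m1, -, -⟩ := dn_basic α hα
  obtain ⟨m2, -, w2⟩ := dn_basic β hβ
  have e : ∫⁻ v, dn α (s - v) ∂β = ∫⁻ v, dn β v * dn α (s - v) := by
    conv_lhs => rw [← w2]
    have ms : Measurable (fun v => dn α (s - v)) := m1.comp (measurable_const.sub measurable_id)
    rw [lintegral_withDensity_eq_lintegral_mul _ m2 ms]
    rfl
  rw [e, ← lintegral_sub_left_eq_self _ s]
  refine lintegral_congr fun x => ?_
  rw [_root_.sub_sub_cancel, mul_comm]

theorem u2_bound (α β : Measure (Eu d)) [IsProbabilityMeasure α] [IsProbabilityMeasure β]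
    (hα : α ≪ volume) (hβ : β ≪ volume) :
    ∫⁻ s, ‖(dn (α.conv β) s).toReal - (dn α s).toReal‖ₑ ≤
      ∫⁻ v, (∫⁻ s, ‖(dn α (s - v)).toReal - (dn α s).toReal‖ₑ) ∂β := by
  obtain ⟨m1, -, -⟩ := dn_basic α hα
  have hc : α.conv β ≪ volume := Measure.conv_absolutelyContinuous hβ
  obtain ⟨m3, l3, -⟩ := dn_basic (α.conv β) hc
  have f3 : ∀ᵐ s, dn (α.conv β) s < ∞ := ae_lt_top m3 (by rw [l3]; exact one_ne_top)
  have mm : Measurable (fun z : Eu d × Eu d =>
      ‖(dn α (z.1 - z.2)).toReal - (dn α z.1).toReal‖ₑ) := by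
    have : Measurable (fun z : Eu d × Eu d => (dn α (z.1 - z.2)).toReal - (dn α z.1).toReal) :=
      (m1.comp (measurable_fst.sub measurable_snd)).ennreal_toReal.sub
        (m1.comp measurable_fst).ennreal_toReal
    exact this.enorm
  rw [← lintegral_lintegral_swap (μ := volume) (ν := β)
    (f := fun s v => ‖(dn α (s - v)).toReal - (dn α s).toReal‖ₑ) mm.aemeasurable]
  refine lintegral_mono_ae ?_
  filter_upwards [u2_dens α β hα hβ, f3] with s h1 h2
  have ms : Measurable (fun v => dn α (s - v)) := m1.comp (measurable_const.sub measurable_id)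
  have h3 : ∫⁻ v, dn α (s - v) ∂β ≠ ∞ := by rw [← h1]; exact h2.ne
  have h4 := ae_lt_top ms h3
  rw [h1, ← integral_toReal ms.aemeasurable h4]
  have i1 : Integrable (fun v => (dn α (s - v)).toReal) β := integrable_toReal_of_lintegral_ne_top
    ms.aemeasurable h3
  have e : (∫ v, (dn α (s - v)).toReal ∂β) - (dn α s).toReal =
      ∫ v, ((dn α (s - v)).toReal - (dn α s).toReal) ∂β := by
    rw [integral_sub i1 (integrable_const _)]
    simp
  rw [e]
  exact enorm_integral_le_lintegral_enorm _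

/-- `L¹` continuity of translations for the density `p` of `α`: choose a continuous `g` with compact
support, `∫ |p - g| ≤ δ / 8` (`Integrable.exists_hasCompactSupport_integral_sub_le`), uniformly
continuous. Let `m` = mean of `β` and `β' = β.map (· - m)`. The density of `α.conv β'` is
`∫ p (x - v) dβ'(v)`; `P(|v| > ρ₀) ≤ ∑ va / ρ₀²` (Chebyshev). -/
theorem conv_close (α : Measure (Eu d)) (hα : Nc α) (L δ : ℝ) (hL : 0 < L) (hδ : 0 < δ) :
    ∃ r > 0, ∀ β : Measure (Eu d), Sp L β → ∑ j, va β j ≤ r → ∃ m : Eu d, ‖m‖ ≤ L * d + 1 ∧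
      ∫ x, |(dn (α.conv (β.map (fun y => y - m))) x).toReal - (dn α x).toReal| ≤ δ := by
  obtain ⟨hpα, -, M, hM⟩ := hα
  have aα : α ≪ volume := by
    refine Measure.AbsolutelyContinuous.mk fun s _ hs => ?_
    have := hM s
    simp only [Measure.smul_apply, hs, smul_zero] at this
    exact le_antisymm this bot_le
  obtain ⟨m1, l1, w1⟩ := dn_basic α aα
  have hp : Integrable (fun x => (dn α x).toReal) :=
    integrable_toReal_of_lintegral_ne_top m1.aemeasurable (by rw [l1]; exact one_ne_top)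
  obtain ⟨ρ, ρ0, hρ⟩ := u2_trans hp (half_pos hδ)
  refine ⟨δ * ρ ^ 2 / 4, by positivity, fun β hβ hva =>
    ⟨u2_m β, (u2_norm_m hL hβ).trans (by linarith), ?_⟩⟩
  have hpβ := hβ.1.1
  have aβ : β ≪ volume := by
    obtain ⟨-, -, M', hM'⟩ := hβ.1
    refine Measure.AbsolutelyContinuous.mk fun s _ hs => ?_
    have := hM' s
    simp only [Measure.smul_apply, hs, smul_zero] at this
    exact le_antisymm this bot_le
  set m := u2_m β with hm
  have mf : Measurable (fun y : Eu d => y - m) := by fun_prop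
  set β' := β.map (fun y => y - m) with hβ'
  have pβ' : IsProbabilityMeasure β' := Measure.isProbabilityMeasure_map mf.aemeasurable
  have aβ' : β' ≪ volume := by
    have h1 : β' ≪ (volume : Measure (Eu d)).map (fun y => y - m) := aβ.map mf
    rwa [(measurePreserving_sub_right volume m).map_eq] at h1
  have hb := u2_bound α β' aα aβ'
  have h2 : ∀ v : Eu d, ∫⁻ s, ‖(dn α (s - v)).toReal - (dn α s).toReal‖ₑ ≤ 2 := by
    intro v
    have h3 : ∀ s, ‖(dn α (s - v)).toReal - (dn α s).toReal‖ₑ ≤ dn α (s - v) + dn α s := by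
      intro s
      refine enorm_sub_le.trans ?_
      have : ∀ t : ℝ≥0∞, ‖t.toReal‖ₑ ≤ t := by
        intro t
        rw [Real.enorm_of_nonneg ENNReal.toReal_nonneg]
        exact ENNReal.ofReal_toReal_le
      exact add_le_add (this _) (this _)
    refine (lintegral_mono h3).trans ?_
    rw [lintegral_add_right _ m1, lintegral_sub_right_eq_self, l1]
    norm_num
  have h4 : ∫⁻ v, (∫⁻ s, ‖(dn α (s - v)).toReal - (dn α s).toReal‖ₑ) ∂β' ≤
      ENNReal.ofReal δ := by
    have ms : MeasurableSet {v : Eu d | ρ < ‖v‖} := measurableSet_lt measurable_const measurable_norm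
    have h5 : ∀ v : Eu d, ∫⁻ s, ‖(dn α (s - v)).toReal - (dn α s).toReal‖ₑ ≤
        ENNReal.ofReal (δ / 2) + ({v : Eu d | ρ < ‖v‖}).indicator (fun _ => 2) v := by
      intro v
      by_cases hv : ‖v‖ ≤ ρ
      · exact (hρ v hv).trans le_self_add
      · rw [indicator_of_mem (by exact not_le.1 hv)]
        exact (h2 v).trans le_add_self
    refine (lintegral_mono h5).trans ?_
    rw [lintegral_add_left measurable_const, lintegral_const, measure_univ, mul_one,
      lintegral_indicator_const ms]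
    have h6 : β' {v : Eu d | ρ < ‖v‖} ≤ ENNReal.ofReal (δ / 4) := by
      rw [hβ', Measure.map_apply mf ms]
      refine (u2_cheb hβ ρ0).trans (ENNReal.ofReal_le_ofReal ?_)
      rw [div_le_iff₀ (by positivity)]
      linarith
    have h7 : (2 : ℝ≥0∞) * β' {v : Eu d | ρ < ‖v‖} ≤ ENNReal.ofReal (δ / 2) := by
      calc (2 : ℝ≥0∞) * β' {v : Eu d | ρ < ‖v‖} ≤ 2 * ENNReal.ofReal (δ / 4) := by gcongr
        _ = ENNReal.ofReal 2 * ENNReal.ofReal (δ / 4) := by norm_num
        _ = ENNReal.ofReal (δ / 2) := by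
          rw [← ENNReal.ofReal_mul (by norm_num)]
          congr 1
          ring
    calc ENNReal.ofReal (δ / 2) + 2 * β' {v : Eu d | ρ < ‖v‖} ≤
        ENNReal.ofReal (δ / 2) + ENNReal.ofReal (δ / 2) := by gcongr
      _ = ENNReal.ofReal δ := by
        rw [← ENNReal.ofReal_add (by positivity) (by positivity)]
        congr 1
        ring
  have h8 := hb.trans h4
  obtain ⟨m3, -, -⟩ := dn_basic (α.conv β') (Measure.conv_absolutelyContinuous aβ')
  have mF : Measurable (fun x => (dn (α.conv β') x).toReal - (dn α x).toReal) :=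
    m3.ennreal_toReal.sub m1.ennreal_toReal
  have e9 : ∫ x, |(dn (α.conv β') x).toReal - (dn α x).toReal| =
      (∫⁻ x, ‖(dn (α.conv β') x).toReal - (dn α x).toReal‖ₑ).toReal := by
    rw [← integral_norm_eq_lintegral_enorm mF.aestronglyMeasurable]
    rfl
  rw [e9]
  exact ENNReal.toReal_le_of_le_ofReal hδ.le h8

end Pool.Agent.LQ
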